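import Mathlib

set_option autoImplicit false

/-! Statements for the project H375-FP: for every `k, w ≥ 1`, `r ≥ (20 k)^w` and every finite
nonempty set `A` of positive integers, `|A|^(k(1+w)) ≤ |A^r|^k |kA|^w`. -/

namespace H375.FP

/-- exponential sum on `ℤ/N` -/
noncomputable def Fs (N : ℕ) [NeZero N] (T : Finset ℕ) (f : ℕ → ℝ) (x : ZMod N) : ℂ :=
  ∑ n ∈ T, (f n : ℂ) * (ZMod.stdAddChar ((n : ZMod N) * x) : ℂ)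

/-- square of the normalised `L^(2k)` norm -/
noncomputable def Sq (N k : ℕ) [NeZero N] (T : Finset ℕ) (f : ℕ → ℝ) : ℝ :=
  ((∑ x : ZMod N, ‖Fs N T f x‖ ^ (2 * k)) / N) ^ (1 / (k : ℝ))

/-- `k`-fold sumset -/
def ksum (k : ℕ) (A : Finset ℕ) : Finset ℕ :=
  (Fintype.piFinset (fun _ : Fin k => A)).image (fun f => ∑ i, f i)

/-- product set of a family -/
def pset {r : ℕ} (A : Fin r → Finset ℕ) : Finset ℕ :=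
  (Fintype.piFinset A).image (fun f => ∏ i, f i)

/-- MART: one step martingale inequality in `L^(2k)`. -/
def TaskMart : Prop :=
  ∀ (N k m : ℕ) [NeZero N] (T : Finset ℕ) (g f : ℕ → ℝ), 1 ≤ k → 0 < m → m ∣ N →
    (∀ n ∈ T, g n ≠ 0 → m ∣ n) → (∀ n ∈ T, f n ≠ 0 → ¬ m ∣ n) →
    Sq N k T (fun n => g n + f n) ≤ Sq N k T g + (8 * k + 2) * Sq N k T f

/-- PARS: Parseval and Cauchy-Schwarz. -/
def TaskPars : Prop :=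
  ∀ (N k : ℕ) [NeZero N] (T A : Finset ℕ) (f : ℕ → ℝ), 1 ≤ k → A ⊆ T → (∀ n, n ∉ A → f n = 0) →
    (∀ n ∈ A, k * n < N) →
    (∑ n ∈ T, f n) ^ (2 * k) ≤ ((ksum k A).card : ℝ) * (Sq N k T f) ^ k

/-- PHI: the one-set inequality. -/
def TaskPhi : Prop :=
  ∀ (C D t x : ℝ) (w r : ℕ), 1 ≤ C → 2 * C ≤ D → 16 ≤ D → 1 ≤ w → D ^ w ≤ r →
    0 < t → t < 1 → 0 < x → x ≤ 1 → t ^ (w + 1) ≤ x ^ w →
    (1 - x / C) ^ w * (1 - t ^ (w + 1) / x ^ w) ^ r ≤ (1 - t) ^ (w + 1)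

/-- IND: the induction over valuations. -/
def TaskInd : Prop :=
  ∀ (B w r : ℕ) (C D : ℝ) (R : Finset ℕ → ℝ), 1 ≤ C → 2 * C ≤ D → 16 ≤ D → 1 ≤ w → D ^ w ≤ r →
    (∀ A : Finset ℕ, A.Nonempty → 1 ≤ R A) →
    (∀ A A' : Finset ℕ, A'.Nonempty → A' ⊆ A → R A' ≤ R A) →
    (∀ (m : ℕ) (A₀ A₁ : Finset ℕ), A₀.Nonempty → A₁.Nonempty →
      (∀ a ∈ A₀ ∪ A₁, 1 ≤ a ∧ a ≤ B) → (∀ a ∈ A₁, m ∣ a) → (∀ a ∈ A₀, ¬ m ∣ a) →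
      R A₁ + R A₀ / C ≤ R (A₀ ∪ A₁)) →
    ∀ A : Fin r → Finset ℕ, (∀ i, (A i).Nonempty) → (∀ i, ∀ a ∈ A i, 1 ≤ a ∧ a ≤ B) →
      ∏ i, (((A i).card : ℝ) ^ (w + 1) / R (A i) ^ w) ≤ ((pset A).card : ℝ) ^ r

end H375.FP
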